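import Pool.Agent.H49.HM.GS3C

/-!
# Ground state inequality in `H¹` (module GS3)
-/

namespace Pool.Agent.H49.HM

open MeasureTheory Set Filter Topology Real Pool.Agent.H99.HM
open scoped ContDiff

theorem integrable_sq {f : E3 → ℂ} (hf : MemLp f 2 volume) :
    Integrable (fun x => ‖f x‖ ^ 2) := by
  have := (memLp_two_iff_integrable_sq_norm hf.1).1 hf
  exact this

/-- Convergence of weighted norms. -/
theorem weight_tendsto {b : E3 → ℝ} {C : ℝ} (hb : ∀ᵐ x, |b x| ≤ C)
    (hbm : AEStronglyMeasurable b volume) {f : E3 → ℂ} (hf : MemLp f 2 volume)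
    {fn : ℕ → E3 → ℂ} (hfn : ∀ n, MemLp (fn n) 2 volume)
    (h : Tendsto (fun n => ∫ x, ‖f x - fn n x‖ ^ 2) atTop (𝓝 0)) :
    Tendsto (fun n => ∫ x, b x * ‖fn n x‖ ^ 2) atTop (𝓝 (∫ x, b x * ‖f x‖ ^ 2)) := by
  have hC : 0 ≤ C := by
    obtain ⟨x, hx⟩ := hb.exists
    exact (abs_nonneg _).trans hx
  have hint : ∀ g : E3 → ℂ, MemLp g 2 volume → Integrable (fun x => b x * ‖g x‖ ^ 2) := by
    intro g hg
    refine ((integrable_sq hg).const_mul C).mono' (hbm.mul (integrable_sq hg).1) ?_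
    filter_upwards [hb] with x hx
    rw [norm_mul, Real.norm_eq_abs, norm_pow, norm_norm]
    gcongr
  set a : ℕ → ℝ := fun n => ∫ x, ‖f x - fn n x‖ ^ 2 with ha
  set A : ℝ := ∫ x, ‖f x‖ ^ 2 with hA
  have ha0 : ∀ n, 0 ≤ a n := fun n => integral_nonneg fun x => by positivity
  have hA0 : 0 ≤ A := integral_nonneg fun x => by positivity
  have hbound : ∀ n, |(∫ x, b x * ‖fn n x‖ ^ 2) - ∫ x, b x * ‖f x‖ ^ 2| ≤
      C * (a n + √(a n) + (√(a n) + 1 / ((n : ℝ) + 1)) * A) := by
    intro n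
    set δ : ℝ := √(a n) + 1 / ((n : ℝ) + 1) with hδ
    have hδ0 : 0 < δ := by positivity
    have hg : MemLp (fun x => f x - fn n x) 2 volume := hf.sub (hfn n)
    have h1 : ∀ᵐ x, |b x * ‖fn n x‖ ^ 2 - b x * ‖f x‖ ^ 2| ≤
        C * ((1 + 1 / δ) * ‖f x - fn n x‖ ^ 2 + δ * ‖f x‖ ^ 2) := by
      filter_upwards [hb] with x hx
      rw [← mul_sub, abs_mul]
      refine mul_le_mul hx ?_ (abs_nonneg _) hC
      set p := ‖f x‖
      set q := ‖fn n x‖
      set r := ‖f x - fn n x‖
      have hp : 0 ≤ p := norm_nonneg _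
      have hq : 0 ≤ q := norm_nonneg _
      have hr : 0 ≤ r := norm_nonneg _
      have h2 : |p - q| ≤ r := abs_norm_sub_norm_le _ _
      have h3 : q ≤ p + r := by
        have := (abs_le.1 h2).1
        linarith
      have h4 : |q ^ 2 - p ^ 2| ≤ r * (2 * p + r) := by
        have e : q ^ 2 - p ^ 2 = (q - p) * (q + p) := by ring
        rw [e, abs_mul, abs_sub_comm, abs_of_nonneg (by positivity : 0 ≤ q + p)]
        exact mul_le_mul h2 (by linarith) (by positivity) hr
      have h5 : 2 * p * r ≤ δ * p ^ 2 + 1 / δ * r ^ 2 := by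
        have h6 : 0 ≤ (δ * p - r) ^ 2 / δ := by positivity
        have h7 : (δ * p - r) ^ 2 / δ = δ * p ^ 2 - 2 * p * r + 1 / δ * r ^ 2 := by
          field_simp
          ring
        linarith
      nlinarith
    rw [← integral_sub (hint _ (hfn n)) (hint _ hf)]
    calc |∫ x, (b x * ‖fn n x‖ ^ 2 - b x * ‖f x‖ ^ 2)|
        ≤ ∫ x, |b x * ‖fn n x‖ ^ 2 - b x * ‖f x‖ ^ 2| := abs_integral_le_integral_abs
      _ ≤ ∫ x, C * ((1 + 1 / δ) * ‖f x - fn n x‖ ^ 2 + δ * ‖f x‖ ^ 2) := by
          refine integral_mono_ae ((hint _ (hfn n)).sub (hint _ hf)).abs ?_ h1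
          exact ((((integrable_sq hg).const_mul _)).add ((integrable_sq hf).const_mul _)).const_mul _
      _ = C * ((1 + 1 / δ) * a n + δ * A) := by
          rw [integral_const_mul, integral_add ((integrable_sq hg).const_mul _)
            ((integrable_sq hf).const_mul _), integral_const_mul, integral_const_mul]
      _ ≤ C * (a n + √(a n) + (√(a n) + 1 / ((n : ℝ) + 1)) * A) := by
          refine mul_le_mul_of_nonneg_left ?_ hC
          have h8 : 1 / δ * a n ≤ √(a n) := by
            rw [one_div, inv_mul_le_iff₀ hδ0]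
            have h9 : a n = √(a n) * √(a n) := (Real.mul_self_sqrt (ha0 n)).symm
            calc a n = √(a n) * √(a n) := h9
              _ ≤ δ * √(a n) := by
                apply mul_le_mul_of_nonneg_right _ (Real.sqrt_nonneg _)
                have : 0 < 1 / ((n : ℝ) + 1) := by positivity
                linarith
          nlinarith
  have hsq : Tendsto (fun n => √(a n)) atTop (𝓝 0) := by
    have := (Real.continuous_sqrt.tendsto 0).comp h
    rw [Real.sqrt_zero] at this
    exact this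
  have hlim : Tendsto (fun n : ℕ => C * (a n + √(a n) + (√(a n) + 1 / ((n : ℝ) + 1)) * A)) atTop
      (𝓝 (C * (0 + 0 + (0 + 0) * A))) :=
    ((h.add hsq).add ((hsq.add tendsto_one_div_add_atTop_nhds_zero_nat).mul_const A)).const_mul C
  rw [add_zero, zero_mul, add_zero, mul_zero] at hlim
  rw [tendsto_iff_norm_sub_tendsto_zero]
  exact squeeze_zero (fun n => norm_nonneg _) (fun n => by rw [Real.norm_eq_abs]; exact hbound n) hlim

/-- `1/t - φ(t)` is bounded. -/
theorem phi_bdd {s s1 : ℝ → ℝ} (hE : ExtFacts 0 0 s s1) :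
    ∃ B : ℝ, 0 ≤ B ∧ ∀ t : ℝ, 0 < t → |1 / t - phi 0 s t| ≤ B := by
  obtain ⟨c, C, hc, hC, hnear⟩ := hE.near0
  have hlow : ∀ t : ℝ, 0 < t → 0 ≤ 1 / t - phi 0 s t := by
    intro t ht
    have h1 := hE.phiUp t ht
    rw [zero_add] at h1
    have h2 : (1 - Sf s t) / t ≤ 1 / t := by
      have := hE.Spos t ht
      gcongr
      linarith
    linarith
  have hM := hE.mpos
  have hder : ∀ t : ℝ, 0 < t → HasDerivAt (fun t => 1 / t - phi 0 s t + C / 2 * t ^ 2)
      (-(t ^ 2)⁻¹ - (-((1 - Sf s t) / (0 + t) ^ 2)) + C / 2 * (2 * t)) t := by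
    intro t ht
    have h1 : HasDerivAt (fun t : ℝ => 1 / t) (-(t ^ 2)⁻¹) t := by
      simpa using hasDerivAt_inv ht.ne'
    have h2 : HasDerivAt (fun t : ℝ => C / 2 * t ^ 2) (C / 2 * (2 * t)) t := by
      simpa using (hasDerivAt_pow 2 t).const_mul (C / 2)
    exact (h1.sub (hE.phiDer t ht)).add h2
  have hmono : MonotoneOn (fun t => 1 / t - phi 0 s t + C / 2 * t ^ 2) (Ioc 0 1) := by
    apply monotoneOn_of_deriv_nonneg (convex_Ioc 0 1)
    · exact fun t ht => (hder t ht.1).continuousAt.continuousWithinAt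
    · intro t ht
      rw [interior_Ioc] at ht
      exact (hder t ht.1).differentiableAt.differentiableWithinAt
    · intro t ht
      rw [interior_Ioc] at ht
      rw [(hder t ht.1).deriv]
      have h3 := (hnear t ⟨ht.1.le, ht.2.le⟩).2.2.2
      have ht0 : 0 < t := ht.1
      have h4 : Sf s t / t ^ 2 ≤ C * t := by
        rw [div_le_iff₀ (by positivity)]
        calc Sf s t ≤ C * t ^ 3 := h3
          _ = C * t * t ^ 2 := by ring
      have h5 : -(t ^ 2)⁻¹ - (-((1 - Sf s t) / (0 + t) ^ 2)) = -(Sf s t / t ^ 2) := by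
        rw [zero_add]; field_simp; ring
      rw [h5]
      linarith
  refine ⟨2 + Mf s + C, by positivity, fun t ht => ?_⟩
  rw [abs_of_nonneg (hlow t ht)]
  have h1 : ∀ t : ℝ, 1 ≤ t → 1 / t - phi 0 s t ≤ 2 + Mf s := by
    intro t ht
    have h2 := hE.phiBd t (by linarith)
    have h3 := (abs_le.1 h2).1
    rw [zero_add] at h3
    have h4 : (1 + Mf s) / t ≤ 1 + Mf s := div_le_self (by positivity) ht
    have h5 : 1 / t ≤ 1 := by
      rw [div_le_one (by linarith)]; exact ht
    linarith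
  rcases le_total 1 t with h | h
  · linarith [h1 t h]
  · have h2 := hmono ⟨ht, h⟩ ⟨one_pos, le_rfl⟩ h
    have h3 := h1 1 le_rfl
    simp only [one_pow, mul_one] at h2
    have h4 : 0 ≤ C / 2 * t ^ 2 := by positivity
    linarith

theorem memLp_test {φ ψ : E3 → ℝ} (hφ : IsTest φ) (hψ : IsTest ψ) :
    MemLp (fun x => (φ x : ℂ) + (ψ x : ℂ) * Complex.I) 2 volume := by
  have h1 : MemLp (fun x => (φ x : ℂ)) 2 volume := by
    apply Continuous.memLp_of_hasCompactSupport
    · exact Complex.continuous_ofReal.comp hφ.1.continuous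
    · exact hφ.2.comp_left (g := fun y : ℝ => (y : ℂ)) (by simp)
  have h2 : MemLp (fun x => (ψ x : ℂ) * Complex.I) 2 volume := by
    apply Continuous.memLp_of_hasCompactSupport
    · exact (Complex.continuous_ofReal.comp hψ.1.continuous).mul continuous_const
    · exact hψ.2.comp_left (g := fun y : ℝ => (y : ℂ) * Complex.I) (by simp)
  exact h1.add h2

theorem norm_sq_test (a b : ℝ) : ‖(a : ℂ) + (b : ℂ) * Complex.I‖ ^ 2 = a ^ 2 + b ^ 2 := by
  rw [Complex.sq_norm, Complex.normSq_add_mul_I]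

theorem GS3 (hF : T_facts) (hD : T_dens) (hC3 : T_gs3c) : T_gs3 := by
  intro s s1 hE v G hv
  have hE' := hF _ _ _ _ hE
  obtain ⟨B, hB0, hB⟩ := phi_bdd hE'
  obtain ⟨φ, ψ, htest, hlim, hlimG⟩ := hD v G hv
  set w : ℕ → E3 → ℂ := fun n x => (φ n x : ℂ) + (ψ n x : ℂ) * Complex.I with hw
  have hwm : ∀ n, MemLp (w n) 2 volume := fun n => memLp_test (htest n).1 (htest n).2
  have hne : ∀ᵐ x : E3, x ≠ 0 := by
    have : (volume : Measure E3) {(0 : E3)} = 0 := measure_singleton _
    rw [ae_iff]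
    simp
  -- the weight `1/|x| - φ`
  set W : E3 → ℝ := fun x => 1 / ‖x‖ - phi 0 s ‖x‖ with hW
  have hWm : AEStronglyMeasurable W volume := by
    have h1 : AEStronglyMeasurable (fun x : E3 => 1 / ‖x‖) volume :=
      (measurable_const.div measurable_norm).aestronglyMeasurable
    exact h1.sub (aesm_phi hE')
  have hWb : ∀ᵐ x, |W x| ≤ B := by
    filter_upwards [hne] with x hx
    exact hB _ (norm_pos_iff.2 hx)
  have hWint : ∀ g : E3 → ℂ, MemLp g 2 volume → Integrable (fun x => W x * ‖g x‖ ^ 2) := by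
    intro g hg
    refine ((integrable_sq hg).const_mul B).mono' (hWm.mul (integrable_sq hg).1) ?_
    filter_upwards [hWb] with x hx
    rw [norm_mul, Real.norm_eq_abs, norm_pow, norm_norm]
    gcongr
  have hWlim := weight_tendsto hWb hWm hv.memLp hwm hlim
  -- the gradient terms
  have hGlim : ∀ i, Tendsto (fun n => ∫ x, (pd i (φ n) x ^ 2 + pd i (ψ n) x ^ 2)) atTop
      (𝓝 (∫ x, ‖G i x‖ ^ 2)) := by
    intro i
    have h1 := weight_tendsto (b := fun _ => (1 : ℝ)) (C := 1)
      (Eventually.of_forall fun x => by simp) aestronglyMeasurable_const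
      (hv.memLp_grad i) (fun n => memLp_test (contDiff_pd (htest n).1 i)
        (contDiff_pd (htest n).2 i)) (hlimG i)
    simp only [one_mul, norm_sq_test] at h1
    exact h1
  -- the right-hand sides
  set R : ℕ → ℝ := fun n => (∑ i, ∫ x, (pd i (φ n) x ^ 2 + pd i (ψ n) x ^ 2)) +
    ∫ x, W x * ‖w n x‖ ^ 2 with hR
  set Rl : ℝ := (∑ i, ∫ x, ‖G i x‖ ^ 2) + ∫ x, W x * ‖v x‖ ^ 2 with hRi
  have hRlim : Tendsto R atTop (𝓝 Rl) :=
    (tendsto_finsetSum _ fun i _ => hGlim i).add hWlim
  have hpdint : ∀ n i, Integrable (fun x => pd i (φ n) x ^ 2) ∧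
      Integrable (fun x => pd i (ψ n) x ^ 2) := by
    intro n i
    constructor
    · apply Continuous.integrable_of_hasCompactSupport
      · exact (contDiff_pd (htest n).1 i).1.continuous.pow 2
      · exact (contDiff_pd (htest n).1 i).2.comp_left (g := fun y : ℝ => y ^ 2) (by simp)
    · apply Continuous.integrable_of_hasCompactSupport
      · exact (contDiff_pd (htest n).2 i).1.continuous.pow 2
      · exact (contDiff_pd (htest n).2 i).2.comp_left (g := fun y : ℝ => y ^ 2) (by simp)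
  -- the inequality for test functions
  have htestineq : ∀ n, Integrable (fun x => ‖w n x‖ ^ 2 / ‖x‖) ∧
      ∫ x, ‖w n x‖ ^ 2 / ‖x‖ ≤ R n := by
    intro n
    obtain ⟨a1, a2, a3⟩ := hC3 s s1 hE _ (htest n).1
    obtain ⟨b1, b2, b3⟩ := hC3 s s1 hE _ (htest n).2
    have e1 : (fun x => ‖w n x‖ ^ 2 / ‖x‖) = fun x => φ n x ^ 2 / ‖x‖ + ψ n x ^ 2 / ‖x‖ := by
      ext x
      simp only [hw, norm_sq_test, add_div]
    have i1 : Integrable (fun x => ‖w n x‖ ^ 2 / ‖x‖) := by rw [e1]; exact a1.add b1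
    refine ⟨i1, ?_⟩
    have e2 : (fun x => ‖w n x‖ ^ 2 / ‖x‖) =
        fun x => (phi 0 s ‖x‖ * φ n x ^ 2 + phi 0 s ‖x‖ * ψ n x ^ 2) + W x * ‖w n x‖ ^ 2 := by
      ext x
      simp only [hw, norm_sq_test, hW]
      ring
    have h12 : Integrable (fun x => phi 0 s ‖x‖ * φ n x ^ 2 + phi 0 s ‖x‖ * ψ n x ^ 2) :=
      a2.add b2
    rw [e2, integral_add h12 (hWint _ (hwm n)), integral_add a2 b2]
    have e3 : (∑ i, ∫ x, (pd i (φ n) x ^ 2 + pd i (ψ n) x ^ 2)) =
        (∫ x, ∑ i, pd i (φ n) x ^ 2) + ∫ x, ∑ i, pd i (ψ n) x ^ 2 := by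
      rw [integral_finsetSum _ fun i _ => (hpdint n i).1,
        integral_finsetSum _ fun i _ => (hpdint n i).2, ← Finset.sum_add_distrib]
      refine Finset.sum_congr rfl fun i _ => ?_
      exact integral_add (hpdint n i).1 (hpdint n i).2
    simp only [hR, e3]
    linarith
  -- truncated weights
  have htrunc : ∀ k : ℕ, ∫ x, min (1 / ‖x‖) (k : ℝ) * ‖v x‖ ^ 2 ≤ Rl := by
    intro k
    have hbm : AEStronglyMeasurable (fun x : E3 => min (1 / ‖x‖) (k : ℝ)) volume :=
      ((measurable_const.div measurable_norm).min measurable_const).aestronglyMeasurable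
    have hbb : ∀ x : E3, |min (1 / ‖x‖) (k : ℝ)| ≤ k := by
      intro x
      rw [abs_of_nonneg (le_min (by positivity) (by positivity))]
      exact min_le_right _ _
    have h1 := weight_tendsto (Eventually.of_forall hbb) hbm hv.memLp hwm hlim
    refine le_of_tendsto_of_tendsto' h1 hRlim fun n => ?_
    refine le_trans (integral_mono ?_ (htestineq n).1 fun x => ?_) (htestineq n).2
    · refine ((integrable_sq (hwm n)).const_mul (k : ℝ)).mono' (hbm.mul (integrable_sq (hwm n)).1) ?_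
      refine Eventually.of_forall fun x => ?_
      rw [norm_mul, Real.norm_eq_abs, norm_pow, norm_norm]
      exact mul_le_mul_of_nonneg_right (hbb x) (by positivity)
    · show min (1 / ‖x‖) (k : ℝ) * ‖w n x‖ ^ 2 ≤ ‖w n x‖ ^ 2 / ‖x‖
      calc min (1 / ‖x‖) (k : ℝ) * ‖w n x‖ ^ 2 ≤ 1 / ‖x‖ * ‖w n x‖ ^ 2 := by
            gcongr
            exact min_le_left _ _
        _ = ‖w n x‖ ^ 2 / ‖x‖ := by ring
  -- monotone convergence
  have hvm : AEStronglyMeasurable (fun x => ‖v x‖ ^ 2 / ‖x‖) volume := by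
    have h1 : AEStronglyMeasurable (fun x : E3 => 1 / ‖x‖) volume :=
      (measurable_const.div measurable_norm).aestronglyMeasurable
    have h2 := (integrable_sq hv.memLp).1.mul h1
    refine h2.congr (Eventually.of_forall fun x => ?_)
    show ‖v x‖ ^ 2 * (1 / ‖x‖) = ‖v x‖ ^ 2 / ‖x‖
    ring
  have hlint : ∫⁻ x, ENNReal.ofReal (‖v x‖ ^ 2 / ‖x‖) ≤ ENNReal.ofReal Rl := by
    have hmeas : ∀ k : ℕ, AEMeasurable
        (fun x : E3 => ENNReal.ofReal (min (1 / ‖x‖) (k : ℝ) * ‖v x‖ ^ 2)) volume := by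
      intro k
      have hbm : AEStronglyMeasurable (fun x : E3 => min (1 / ‖x‖) (k : ℝ)) volume :=
        ((measurable_const.div measurable_norm).min measurable_const).aestronglyMeasurable
      exact (hbm.mul (integrable_sq hv.memLp).1).aemeasurable.ennreal_ofReal
    have hconv := lintegral_tendsto_of_tendsto_of_monotone
      (F := fun x => ENNReal.ofReal (‖v x‖ ^ 2 / ‖x‖)) hmeas
      (Eventually.of_forall fun x => ?_) ?_
    · refine le_of_tendsto' hconv fun k => ?_
      have hbm : AEStronglyMeasurable (fun x : E3 => min (1 / ‖x‖) (k : ℝ)) volume :=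
        ((measurable_const.div measurable_norm).min measurable_const).aestronglyMeasurable
      have hi : Integrable (fun x => min (1 / ‖x‖) (k : ℝ) * ‖v x‖ ^ 2) := by
        refine ((integrable_sq hv.memLp).const_mul (k : ℝ)).mono'
          (hbm.mul (integrable_sq hv.memLp).1) ?_
        refine Eventually.of_forall fun x => ?_
        rw [norm_mul, Real.norm_eq_abs, norm_pow, norm_norm]
        refine mul_le_mul_of_nonneg_right ?_ (by positivity)
        rw [abs_of_nonneg (le_min (by positivity) (by positivity))]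
        exact min_le_right _ _
      rw [← ofReal_integral_eq_lintegral_ofReal hi (Eventually.of_forall fun x => by
        show 0 ≤ min (1 / ‖x‖) (k : ℝ) * ‖v x‖ ^ 2
        positivity)]
      exact ENNReal.ofReal_le_ofReal (htrunc k)
    · intro k l hkl
      apply ENNReal.ofReal_le_ofReal
      have : (k : ℝ) ≤ l := by exact_mod_cast hkl
      gcongr
    · refine Eventually.of_forall fun x => ?_
      refine (ENNReal.continuous_ofReal.tendsto _).comp ?_
      refine tendsto_const_nhds.congr' ?_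
      obtain ⟨k, hk⟩ := exists_nat_ge (1 / ‖x‖)
      filter_upwards [eventually_ge_atTop k] with l hl
      have : (k : ℝ) ≤ l := by exact_mod_cast hl
      rw [min_eq_left (hk.trans this)]
      ring
  have hI1 : Integrable (fun x => ‖v x‖ ^ 2 / ‖x‖) := by
    refine ⟨hvm, ?_⟩
    rw [hasFiniteIntegral_iff_ofReal (Eventually.of_forall fun x => by
      show 0 ≤ ‖v x‖ ^ 2 / ‖x‖
      positivity)]
    exact lt_of_le_of_lt hlint ENNReal.ofReal_lt_top
  have hRnn : 0 ≤ Rl := by
    have h1 := htrunc 0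
    refine le_trans (integral_nonneg fun x => ?_) h1
    show 0 ≤ min (1 / ‖x‖) ((0 : ℕ) : ℝ) * ‖v x‖ ^ 2
    have : 0 ≤ 1 / ‖x‖ := by positivity
    positivity
  have hle : ∫ x, ‖v x‖ ^ 2 / ‖x‖ ≤ Rl := by
    rw [integral_eq_lintegral_of_nonneg_ae (Eventually.of_forall fun x => by
      show 0 ≤ ‖v x‖ ^ 2 / ‖x‖
      positivity) hvm]
    exact ENNReal.toReal_le_of_le_ofReal hRnn hlint
  have e4 : (fun x => phi 0 s ‖x‖ * ‖v x‖ ^ 2) =
      fun x => ‖v x‖ ^ 2 / ‖x‖ - W x * ‖v x‖ ^ 2 := by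
    ext x
    simp only [hW]
    ring
  have hI2 : Integrable (fun x => phi 0 s ‖x‖ * ‖v x‖ ^ 2) := by
    rw [e4]
    exact hI1.sub (hWint _ hv.memLp)
  refine ⟨hI1, hI2, ?_⟩
  rw [e4, integral_sub hI1 (hWint _ hv.memLp),
    integral_finsetSum _ fun i _ => integrable_sq (hv.memLp_grad i)]
  linarith

end Pool.Agent.H49.HM
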