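import Pool.Agent.H49.HM.Polar

/-!
# Ground state inequality for test functions (module GS3C)
-/

namespace Pool.Agent.H49.HM

open MeasureTheory Set Filter Topology Real Pool.Agent.H99.HM
open scoped ContDiff

/-- Bounds for a test function. -/
theorem test_bound {φ : E3 → ℝ} (hφ : IsTest φ) :
    ∃ C R : ℝ, 0 < C ∧ 0 < R ∧ (∀ x, |φ x| ≤ C) ∧ ∀ x : E3, R ≤ ‖x‖ → φ x = 0 := by
  obtain ⟨C, hC⟩ := hφ.2.exists_bound_of_continuous hφ.1.continuous
  obtain ⟨R, hR⟩ := hφ.2.isCompact.isBounded.subset_ball (0 : E3)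
  refine ⟨|C| + 1, max R 1, by positivity, by positivity, ?_, ?_⟩
  · intro x
    have := hC x
    rw [Real.norm_eq_abs] at this
    linarith [le_abs_self C]
  · intro x hx
    by_contra h
    have h1 : x ∈ tsupport φ := subset_tsupport _ h
    have h2 := hR h1
    rw [Metric.mem_ball, dist_zero_right] at h2
    have := le_max_left R 1
    linarith

/-- `1/|x|` is locally integrable. -/
theorem integrable_inv_norm (hP : T_polar) (C R : ℝ) :
    Integrable (fun x : E3 => (Iio R).indicator (fun r => C / r) ‖x‖) := by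
  rw [(hP.2 ((Iio R).indicator (fun r => C / r))).1]
  have h1 : IntegrableOn (fun r : ℝ => C * r) (Ioo 0 R) := by
    rw [← integrableOn_Icc_iff_integrableOn_Ioo]
    exact (by fun_prop : Continuous fun r : ℝ => C * r).continuousOn.integrableOn_Icc
  have h2 : Integrable ((Ioo 0 R).indicator fun r : ℝ => C * r) :=
    (integrable_indicator_iff measurableSet_Ioo).2 h1
  refine (h2.integrableOn (s := Ioi 0)).congr_fun ?_ measurableSet_Ioi
  intro r hr
  have hr : 0 < r := hr
  by_cases hrR : r < R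
  · simp only [indicator, mem_Ioo, hr, hrR, and_self, if_true, mem_Iio]
    field_simp
  · simp [indicator, hrR]

theorem integrable_test_div (hP : T_polar) {φ : E3 → ℝ} (hφ : IsTest φ) :
    Integrable (fun x : E3 => φ x ^ 2 / ‖x‖) := by
  obtain ⟨C, R, hC, hR, hb, hz⟩ := test_bound hφ
  refine (integrable_inv_norm hP (C ^ 2) R).mono' ?_ ?_
  · have h1 : Measurable φ := hφ.1.continuous.measurable
    exact ((h1.pow_const 2).div measurable_norm).aestronglyMeasurable
  · refine Eventually.of_forall fun x => ?_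
    rw [Real.norm_eq_abs, abs_div, abs_norm]
    by_cases hx : ‖x‖ < R
    · rw [indicator_of_mem (mem_Iio.2 hx), abs_pow]
      gcongr
      exact hb x
    · rw [hz x (not_lt.1 hx), indicator_of_notMem (by simpa using hx)]
      simp

theorem aesm_phi {s s1 : ℝ → ℝ} (hE : ExtFacts 0 0 s s1) :
    AEStronglyMeasurable (fun x : E3 => phi 0 s ‖x‖) volume := by
  have h1 : ContinuousOn (phi 0 s) (Ioi 0) := fun t ht =>
    (hE.phiDer t ht).continuousAt.continuousWithinAt
  have h2 : ContinuousOn (fun x : E3 => phi 0 s ‖x‖) ({0}ᶜ : Set E3) := by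
    apply h1.comp continuous_norm.continuousOn
    intro x hx
    exact norm_pos_iff.2 hx
  have h3 := h2.aestronglyMeasurable (μ := volume) (measurableSet_singleton (0 : E3)).compl
  rwa [restrict_compl_singleton] at h3

theorem integrable_phi_test (hP : T_polar) {s s1 : ℝ → ℝ} (hE : ExtFacts 0 0 s s1) {φ : E3 → ℝ}
    (hφ : IsTest φ) : Integrable (fun x : E3 => phi 0 s ‖x‖ * φ x ^ 2) := by
  have h1 := (integrable_test_div hP hφ).const_mul (1 + Mf s)
  refine h1.mono' ?_ ?_
  · exact (aesm_phi hE).mul (hφ.1.continuous.pow 2).aestronglyMeasurable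
  · have h2 : ∀ᵐ x : E3, x ≠ 0 := by
      have : (volume : Measure E3) {(0 : E3)} = 0 := measure_singleton _
      rw [ae_iff]
      simp
    filter_upwards [h2] with x hx
    have hx' : 0 < ‖x‖ := norm_pos_iff.2 hx
    have h3 := hE.phiBd ‖x‖ hx'
    rw [zero_add] at h3
    rw [Real.norm_eq_abs, abs_mul, abs_of_nonneg (sq_nonneg (φ x))]
    calc |phi 0 s ‖x‖| * φ x ^ 2 ≤ (1 + Mf s) / ‖x‖ * φ x ^ 2 := by gcongr
      _ = (1 + Mf s) * (φ x ^ 2 / ‖x‖) := by ring

theorem contDiff_pd {φ : E3 → ℝ} (hφ : IsTest φ) (i : Fin 3) : IsTest (pd i φ) := by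
  constructor
  · show ContDiff ℝ ∞ fun x => fderiv ℝ φ x (EuclideanSpace.single i 1)
    exact (hφ.1.fderiv_right (m := ∞) (by simp)).clm_apply contDiff_const
  · have h1 : HasCompactSupport (fderiv ℝ φ) := hφ.2.fderiv ℝ
    exact h1.comp_left (g := fun T : E3 →L[ℝ] ℝ => T (EuclideanSpace.single i 1)) (by simp)

theorem sq_fderiv_le {φ : E3 → ℝ} (x w : E3) (hw : ‖w‖ = 1) :
    (fderiv ℝ φ x w) ^ 2 ≤ ∑ i, pd i φ x ^ 2 := by
  have h1 : fderiv ℝ φ x w = ∑ i, w i * pd i φ x := by
    have hw' : w = ∑ i, w i • (EuclideanSpace.single i (1 : ℝ) : E3) := by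
      ext j
      simp [Finset.sum_apply, Pi.single_apply]
    conv_lhs => rw [hw']
    rw [map_sum]
    simp only [map_smul, smul_eq_mul, pd]
  rw [h1]
  have h2 := Finset.sum_mul_sq_le_sq_mul_sq Finset.univ (fun i => w i) (fun i => pd i φ x)
  have h3 : ∑ i, (w i) ^ 2 = 1 := by
    have := EuclideanSpace.norm_sq_eq w
    rw [hw] at this
    simp only [Real.norm_eq_abs, sq_abs] at this
    linarith
  rw [h3, one_mul] at h2
  exact h2

/-- The inequality on a ray. -/
theorem ray (hG : T_gs1) {s s1 : ℝ → ℝ} (hE : Ext 0 0 s s1) {φ : E3 → ℝ} (hφ : IsTest φ) {w : E3}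
    (hw : ‖w‖ = 1) :
    ∫ r in Ioi (0 : ℝ), r ^ 2 * (phi 0 s ‖r • w‖ * φ (r • w) ^ 2) ≤
      ∫ r in Ioi (0 : ℝ), r ^ 2 * ∑ i, pd i φ (r • w) ^ 2 := by
  have hline : ContDiff ℝ ∞ (fun r : ℝ => r • w) := contDiff_id.smul contDiff_const
  have hemb : IsClosedEmbedding (fun r : ℝ => r • w) := by
    have h1 : Isometry (fun r : ℝ => r • w) := by
      refine Isometry.of_dist_eq fun a b => ?_
      rw [dist_eq_norm, ← sub_smul, norm_smul, hw, mul_one, dist_eq_norm]
    exact h1.isClosedEmbedding
  set k : ℝ → ℝ := fun r => φ (r • w) with hk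
  have hkc : ContDiff ℝ ∞ k := hφ.1.comp hline
  have hks : HasCompactSupport k := hφ.2.comp_isClosedEmbedding hemb
  have hkd : ∀ r, HasDerivAt k (deriv k r) r := fun r =>
    (hkc.differentiable (by simp) r).hasDerivAt
  have hkd' : ∀ r, deriv k r = fderiv ℝ φ (r • w) w := by
    intro r
    have h1 : HasDerivAt (fun r : ℝ => r • w) w r := by
      simpa using (hasDerivAt_id r).smul_const w
    have h2 := ((hφ.1.differentiable (by simp) (r • w)).hasFDerivAt).comp_hasDerivAt r h1
    exact h2.deriv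
  have hdc : Continuous (deriv k) := hkc.continuous_deriv (by simp)
  have hds : HasCompactSupport (deriv k) := hks.deriv
  set g : ℝ → ℝ := fun r => r * k r with hg
  have hgc : ContDiff ℝ ∞ g := contDiff_id.mul hkc
  have hgs : HasCompactSupport g := hks.mul_left
  have hgd : ∀ r, HasDerivAt g (k r + r * deriv k r) r := by
    intro r
    have h1 : HasDerivAt (fun r : ℝ => r * k r) (1 * k r + r * deriv k r) r :=
      (hasDerivAt_id' r).fun_mul (hkd r)
    rwa [one_mul] at h1
  have hgd' : ∀ r, deriv g r = k r + r * deriv k r := fun r => (hgd r).deriv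
  have hgdc : Continuous (deriv g) := hgc.continuous_deriv (by simp)
  have hV : Vg (deriv g) = g := by
    ext t
    rw [Vg, intervalIntegral.integral_deriv_eq_sub (fun x _ => (hgd x).differentiableAt)
      (hgdc.intervalIntegrable _ _)]
    simp [hg]
  have hadm : Adm (deriv g) := by
    refine ⟨?_, ?_⟩
    · exact (hgdc.memLp_of_hasCompactSupport hgs.deriv).restrict _
    · rw [hV]
      exact (hgc.continuous.memLp_of_hasCompactSupport hgs).restrict _
  obtain ⟨-, hineq⟩ := hG 0 0 s s1 hE _ hadm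
  have e1 : ∫ r in Ioi (0 : ℝ), r ^ 2 * (phi 0 s ‖r • w‖ * φ (r • w) ^ 2) =
      ∫ t in Ioi (0 : ℝ), (phi 0 s t - 0) * Vg (deriv g) t ^ 2 := by
    refine setIntegral_congr_fun measurableSet_Ioi fun r hr => ?_
    have hr : 0 < r := hr
    simp only [hV, norm_smul, hw, mul_one, Real.norm_eq_abs, abs_of_pos hr, sub_zero]
    simp only [hg, hk]
    ring
  have i1 : Integrable (fun r => r ^ 2 * deriv k r ^ 2) := by
    apply Continuous.integrable_of_hasCompactSupport
    · exact (continuous_id.pow 2).mul (hdc.pow 2)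
    · have : HasCompactSupport (fun r => deriv k r ^ 2) :=
        hds.comp_left (g := fun y : ℝ => y ^ 2) (by simp)
      exact this.mul_left
  have i2 : ∀ r, HasDerivAt (fun r => r * k r ^ 2) (k r ^ 2 + r * (2 * k r * deriv k r)) r := by
    intro r
    have h1 : HasDerivAt (fun r : ℝ => r * k r ^ 2)
        (1 * k r ^ 2 + r * ((2 : ℕ) * k r ^ (2 - 1) * deriv k r)) r :=
      (hasDerivAt_id' r).fun_mul ((hkd r).fun_pow 2)
    simpa using h1
  have hm : ContDiff ℝ 1 (fun r => r * k r ^ 2) :=
    (contDiff_id.mul (hkc.pow 2)).of_le (by exact_mod_cast le_top)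
  have hms : HasCompactSupport (fun r => r * k r ^ 2) := by
    have : HasCompactSupport (fun r => k r ^ 2) := hks.comp_left (g := fun y : ℝ => y ^ 2) (by simp)
    exact this.mul_left
  have i3 : ∫ r in Ioi (0 : ℝ), deriv (fun r => r * k r ^ 2) r = 0 := by
    rw [hms.integral_Ioi_deriv_eq hm]
    simp
  have i4 : Integrable (deriv (fun r => r * k r ^ 2)) :=
    (hm.continuous_deriv le_rfl).integrable_of_hasCompactSupport hms.deriv
  have e2 : ∫ t in Ioi (0 : ℝ), deriv g t ^ 2 = ∫ r in Ioi (0 : ℝ), r ^ 2 * deriv k r ^ 2 := by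
    have e3 : ∀ r, deriv g r ^ 2 = deriv (fun r => r * k r ^ 2) r + r ^ 2 * deriv k r ^ 2 := by
      intro r
      rw [hgd' r, (i2 r).deriv]
      ring
    simp only [e3]
    rw [integral_add i4.integrableOn i1.integrableOn, i3, zero_add]
  rw [e1]
  refine hineq.trans ?_
  rw [e2]
  refine setIntegral_mono i1.integrableOn ?_ ?_
  · apply Integrable.integrableOn
    apply Continuous.integrable_of_hasCompactSupport
    · refine (continuous_id.pow 2).mul (continuous_finsetSum _ fun i _ => ?_)
      exact (((contDiff_pd hφ i).1.continuous).comp hline.continuous).pow 2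
    · have : HasCompactSupport (fun r : ℝ => ∑ i, pd i φ (r • w) ^ 2) := by
        have h1 : HasCompactSupport (fun x : E3 => ∑ i, pd i φ x ^ 2) := by
          have h2 : ∀ i : Fin 3, HasCompactSupport (fun x : E3 => pd i φ x ^ 2) := fun i =>
            (contDiff_pd hφ i).2.comp_left (g := fun y : ℝ => y ^ 2) (by simp)
          have h3 := ((h2 0).add (h2 1)).add (h2 2)
          have h4 : (fun x : E3 => ∑ i, pd i φ x ^ 2) =
              ((fun x : E3 => pd 0 φ x ^ 2) + (fun x : E3 => pd 1 φ x ^ 2)) +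
                (fun x : E3 => pd 2 φ x ^ 2) := by
            ext x
            simp [Fin.sum_univ_three]
          rw [h4]
          exact h3
        exact h1.comp_isClosedEmbedding hemb
      exact this.mul_left
  · intro r
    have := sq_fderiv_le (φ := φ) (r • w) w hw
    rw [← hkd' r] at this
    exact mul_le_mul_of_nonneg_left this (sq_nonneg r)

theorem GS3C (hF : T_facts) (hG : T_gs1) (hP : T_polar) : T_gs3c := by
  intro s s1 hE φ hφ
  have hE' := hF _ _ _ _ hE
  refine ⟨integrable_test_div hP hφ, integrable_phi_test hP hE' hφ, ?_⟩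
  refine integral_mono_rays _ _ (integrable_phi_test hP hE' hφ) ?_ ?_
  · refine integrable_finsetSum _ fun i _ => ?_
    apply Continuous.integrable_of_hasCompactSupport
    · exact (contDiff_pd hφ i).1.continuous.pow 2
    · exact (contDiff_pd hφ i).2.comp_left (g := fun y : ℝ => y ^ 2) (by simp)
  · intro w hw
    exact ray hG hE hφ hw

end Pool.Agent.H49.HM
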