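import Pool.Agent.H49.HM.WH1a

/-!
# The function `s(|x|)/|x|` (module WH1)
-/

namespace Pool.Agent.H49.HM

open MeasureTheory Set Filter Topology Real Pool.Agent.H99.HM
open scoped ContDiff

/-- The radial profile. -/
noncomputable def Wp (s : ℝ → ℝ) (r : ℝ) : ℝ := s r / r

/-- The derivative of the radial profile. -/
noncomputable def Dp (s s1 : ℝ → ℝ) (r : ℝ) : ℝ := (s1 r - s r / r) / r

/-- The gradient. -/
noncomputable def Gr (s s1 : ℝ → ℝ) (i : Fin 3) (x : E3) : ℝ := Dp s s1 ‖x‖ * (x i / ‖x‖)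

theorem ae_ne_zero : ∀ᵐ x : E3, x ≠ 0 := by
  have : (volume : Measure E3) {(0 : E3)} = 0 := measure_singleton _
  rw [ae_iff]
  simp

theorem aesm_radial {f : ℝ → ℝ} (hf : ContinuousOn f (Ioi 0)) :
    AEStronglyMeasurable (fun x : E3 => f ‖x‖) volume := by
  have h2 : ContinuousOn (fun x : E3 => f ‖x‖) ({0}ᶜ : Set E3) := by
    apply hf.comp continuous_norm.continuousOn
    intro x hx
    exact norm_pos_iff.2 hx
  have h3 := h2.aestronglyMeasurable (μ := volume) (measurableSet_singleton (0 : E3)).compl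
  rwa [restrict_compl_singleton] at h3

theorem hasDerivAt_Wp {s s1 : ℝ → ℝ} (hx : Ext 0 0 s s1) {r : ℝ} (hr : 0 < r) :
    HasDerivAt (Wp s) (Dp s s1 r) r := by
  have h2 : HasDerivAt (fun t => s t / t) ((s1 r * r - s r * 1) / r ^ 2) r :=
    (hx.der r hr).fun_div (hasDerivAt_id' r) hr.ne'
  have e : Dp s s1 r = (s1 r * r - s r * 1) / r ^ 2 := by
    rw [Dp]
    field_simp
  rw [e]
  exact h2

theorem sum_Gr (s s1 : ℝ → ℝ) (x : E3) : ∑ i, Gr s s1 i x ^ 2 = Dp s s1 ‖x‖ ^ 2 := by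
  by_cases hx : x = 0
  · simp [Gr, hx, Dp]
  · have hx' : ‖x‖ ≠ 0 := norm_ne_zero_iff.2 hx
    have h1 : ∑ i, x i ^ 2 = ‖x‖ ^ 2 := by
      rw [EuclideanSpace.norm_sq_eq]
      simp
    simp only [Gr, mul_pow, div_pow]
    rw [← Finset.mul_sum, ← Finset.sum_div, h1, div_self (pow_ne_zero 2 hx'), mul_one]

section

variable {s s1 : ℝ → ℝ}

/-- regularised radius -/
noncomputable def rho (ε : ℝ) (x : E3) : ℝ := √(‖x‖ ^ 2 + ε ^ 2)

theorem rho_pos {ε : ℝ} (hε : 0 < ε) (x : E3) : 0 < rho ε x := Real.sqrt_pos.2 (by positivity)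

theorem rho_cont (ε : ℝ) : Continuous (rho ε) := by
  unfold rho
  fun_prop

theorem norm_le_rho (ε : ℝ) (x : E3) : ‖x‖ ≤ rho ε x := by
  apply Real.le_sqrt_of_sq_le
  nlinarith [sq_nonneg ε]

theorem lineDeriv_rho (hx : Ext 0 0 s s1) {ε : ℝ} (hε : 0 < ε) (i : Fin 3) (x : E3) :
    HasLineDerivAt ℝ (fun y => Wp s (rho ε y)) (Dp s s1 (rho ε x) * (x i / rho ε x)) x
      (EuclideanSpace.single i 1) := by
  have h1 : ∀ t : ℝ, ‖x + t • (EuclideanSpace.single i (1 : ℝ) : E3)‖ ^ 2 =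
      ‖x‖ ^ 2 + 2 * t * x i + t ^ 2 := by
    intro t
    rw [norm_add_sq_real, inner_smul_right, norm_smul, PiLp.norm_single]
    have h2 : inner ℝ x (EuclideanSpace.single i (1 : ℝ) : E3) = x i := by
      rw [EuclideanSpace.inner_single_right]
      simp
    rw [h2]
    simp only [norm_one, mul_one, Real.norm_eq_abs, sq_abs]
    ring
  have h3 : (fun t : ℝ => Wp s (rho ε (x + t • (EuclideanSpace.single i (1 : ℝ) : E3)))) =
      fun t : ℝ => Wp s (√(‖x‖ ^ 2 + 2 * t * x i + t ^ 2 + ε ^ 2)) := by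
    ext t
    rw [rho, h1]
  show HasDerivAt (fun t : ℝ => Wp s (rho ε (x + t • (EuclideanSpace.single i (1 : ℝ) : E3)))) _ 0
  rw [h3]
  have h4 : HasDerivAt (fun t : ℝ => ‖x‖ ^ 2 + 2 * t * x i + t ^ 2 + ε ^ 2) (2 * x i) 0 := by
    have h5 : HasDerivAt (fun t : ℝ => ‖x‖ ^ 2 + 2 * t * x i + t ^ 2 + ε ^ 2)
        (0 + 2 * 1 * x i + (2 : ℕ) * (0 : ℝ) ^ (2 - 1) + 0) 0 := by
      refine HasDerivAt.fun_add (HasDerivAt.fun_add (HasDerivAt.fun_add (hasDerivAt_const _ _) ?_)
        (hasDerivAt_pow 2 0)) (hasDerivAt_const _ _)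
      exact (((hasDerivAt_id' (0 : ℝ)).const_mul 2).mul_const (x i))
    simpa using h5
  have e0 : ‖x‖ ^ 2 + 2 * 0 * x i + (0 : ℝ) ^ 2 + ε ^ 2 = ‖x‖ ^ 2 + ε ^ 2 := by ring
  have h6 := h4.sqrt (by rw [e0]; positivity)
  rw [e0] at h6
  have h7 : HasDerivAt (Wp s) (Dp s s1 (rho ε x))
      (√(‖x‖ ^ 2 + 2 * 0 * x i + (0 : ℝ) ^ 2 + ε ^ 2)) := by
    rw [e0]
    exact hasDerivAt_Wp hx (rho_pos hε x)
  have h8 := h7.comp (0 : ℝ) h6
  have e1 : Dp s s1 (rho ε x) * (x i / rho ε x) =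
      Dp s s1 (rho ε x) * (2 * x i / (2 * √(‖x‖ ^ 2 + ε ^ 2))) := by
    rw [rho]
    congr 1
    field_simp
  rw [e1]
  exact h8

theorem weak_real (hP : T_polar) (hx : Ext 0 0 s s1) (hf : ExtFacts 0 0 s s1)
    (h1 : Facts1 s s1) (i : Fin 3) {φ : E3 → ℝ} (hφ : IsTest φ) :
    ∫ x, Wp s ‖x‖ * pd i φ x = -∫ x, Gr s s1 i x * φ x := by
  obtain ⟨K, hK0, hKW, hK1⟩ := h1.bd
  obtain ⟨C, R, hC, hR, hb, hz⟩ := test_bound hφ
  have hscont : ContinuousOn s (Ioi 0) := hf.contS.mono Ioi_subset_Ici_self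
  have hs1cont : ContinuousOn s1 (Ioi 0) := hx.cont1.mono Ioi_subset_Ici_self
  have hidc : ContinuousOn (fun t : ℝ => t) (Ioi 0) := continuousOn_id
  have hne : ∀ t ∈ Ioi (0 : ℝ), (fun t : ℝ => t) t ≠ 0 := fun t ht => (mem_Ioi.1 ht).ne'
  have hWc : ContinuousOn (Wp s) (Ioi 0) := hscont.div hidc hne
  have hDc : ContinuousOn (Dp s s1) (Ioi 0) := (hs1cont.sub (hscont.div hidc hne)).div hidc hne
  have hWb : ∀ r, 0 < r → |Wp s r| ≤ K := by
    intro r hr
    rw [Wp, abs_of_nonneg (div_nonneg (h1.nonneg r hr.le) hr.le)]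
    exact hKW r hr
  have hDb : ∀ r, 0 < r → |Dp s s1 r| ≤ 2 * K / r := by
    intro r hr
    rw [Dp, abs_div, abs_of_pos hr]
    gcongr
    calc |s1 r - s r / r| ≤ |s1 r| + |s r / r| := abs_sub _ _
      _ ≤ K + K := add_le_add (hK1 r hr) (hWb r hr)
      _ = 2 * K := by ring
  set e : ℕ → ℝ := fun n => 1 / ((n : ℝ) + 1) with he
  have he0 : ∀ n, 0 < e n := fun n => by positivity
  have helim : Tendsto e atTop (𝓝 0) := tendsto_one_div_add_atTop_nhds_zero_nat
  have hrho : ∀ x : E3, Tendsto (fun n => rho (e n) x) atTop (𝓝 ‖x‖) := by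
    intro x
    have h2 : Tendsto (fun n => √(‖x‖ ^ 2 + e n ^ 2)) atTop (𝓝 (√(‖x‖ ^ 2 + 0 ^ 2))) :=
      (Real.continuous_sqrt.tendsto _).comp ((helim.pow 2).const_add _)
    rw [zero_pow two_ne_zero, add_zero, Real.sqrt_sq (norm_nonneg x)] at h2
    exact h2
  have hWcont : ∀ n, Continuous fun x : E3 => Wp s (rho (e n) x) := fun n =>
    hWc.comp_continuous (rho_cont _) fun x => rho_pos (he0 n) x
  have hDcont : ∀ n, Continuous fun x : E3 => Dp s s1 (rho (e n) x) * (x i / rho (e n) x) := by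
    intro n
    refine (hDc.comp_continuous (rho_cont _) fun x => rho_pos (he0 n) x).mul ?_
    exact (by fun_prop : Continuous fun x : E3 => x i).div (rho_cont _)
      fun x => (rho_pos (he0 n) x).ne'
  -- integration by parts
  have hparts : ∀ n, ∫ x, Wp s (rho (e n) x) * pd i φ x =
      -∫ x, (Dp s s1 (rho (e n) x) * (x i / rho (e n) x)) * φ x := by
    intro n
    have h2 := integral_bilinear_hasLineDerivAt_right_eq_neg_left_of_integrable
      (μ := (volume : Measure E3)) (f := fun x => Wp s (rho (e n) x))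
      (f' := fun x => Dp s s1 (rho (e n) x) * (x i / rho (e n) x)) (g := φ) (g' := pd i φ)
      (v := EuclideanSpace.single i 1) (B := ContinuousLinearMap.mul ℝ ℝ) ?_ ?_ ?_ ?_ ?_
    · simpa using h2
    · simp only [ContinuousLinearMap.mul_apply']
      exact ((hDcont n).mul hφ.1.continuous).integrable_of_hasCompactSupport hφ.2.mul_left
    · simp only [ContinuousLinearMap.mul_apply']
      exact ((hWcont n).mul (contDiff_pd hφ i).1.continuous).integrable_of_hasCompactSupport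
        (contDiff_pd hφ i).2.mul_left
    · simp only [ContinuousLinearMap.mul_apply']
      exact ((hWcont n).mul hφ.1.continuous).integrable_of_hasCompactSupport hφ.2.mul_left
    · intro x _
      exact lineDeriv_rho hx (he0 n) i x
    · intro x _
      exact ((hφ.1.differentiable (by simp) x).hasFDerivAt).hasLineDerivAt _
  -- the limits
  have lim1 : Tendsto (fun n => ∫ x, Wp s (rho (e n) x) * pd i φ x) atTop
      (𝓝 (∫ x, Wp s ‖x‖ * pd i φ x)) := by
    refine tendsto_integral_of_dominated_convergence (fun x => K * |pd i φ x|) ?_ ?_ ?_ ?_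
    · exact fun n => ((hWcont n).mul (contDiff_pd hφ i).1.continuous).aestronglyMeasurable
    · apply Integrable.const_mul
      exact ((contDiff_pd hφ i).1.continuous.integrable_of_hasCompactSupport
        (contDiff_pd hφ i).2).abs
    · intro n
      refine Eventually.of_forall fun x => ?_
      rw [Real.norm_eq_abs, abs_mul]
      gcongr
      exact hWb _ (rho_pos (he0 n) x)
    · filter_upwards [ae_ne_zero] with x hx0
      have hx' : 0 < ‖x‖ := norm_pos_iff.2 hx0
      refine Tendsto.mul_const _ ?_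
      exact ((hWc.continuousAt (Ioi_mem_nhds hx')).tendsto).comp (hrho x)
  have lim2 : Tendsto (fun n => ∫ x, (Dp s s1 (rho (e n) x) * (x i / rho (e n) x)) * φ x) atTop
      (𝓝 (∫ x, Gr s s1 i x * φ x)) := by
    refine tendsto_integral_of_dominated_convergence
      (fun x => 2 * K * (Iio R).indicator (fun r => C / r) ‖x‖) ?_ ?_ ?_ ?_
    · exact fun n => ((hDcont n).mul hφ.1.continuous).aestronglyMeasurable
    · exact (integrable_inv_norm hP C R).const_mul _
    · intro n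
      filter_upwards [ae_ne_zero] with x hx0
      have hx' : 0 < ‖x‖ := norm_pos_iff.2 hx0
      have hr := rho_pos (he0 n) x
      have hxi : |x i / rho (e n) x| ≤ 1 := by
        rw [abs_div, abs_of_pos hr, div_le_one hr]
        exact (by simpa using PiLp.norm_apply_le x i : |x i| ≤ ‖x‖).trans
          (norm_le_rho _ _)
      by_cases hxR : ‖x‖ < R
      · rw [indicator_of_mem (mem_Iio.2 hxR), Real.norm_eq_abs, abs_mul, abs_mul]
        calc |Dp s s1 (rho (e n) x)| * |x i / rho (e n) x| * |φ x|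
            ≤ 2 * K / rho (e n) x * 1 * C := by
              gcongr
              · exact hDb _ hr
              · exact hb x
          _ ≤ 2 * K / ‖x‖ * 1 * C := by
              gcongr
              exact norm_le_rho _ _
          _ = 2 * K * (C / ‖x‖) := by ring
      · rw [hz x (not_lt.1 hxR), indicator_of_notMem (by simpa using hxR)]
        simp
    · filter_upwards [ae_ne_zero] with x hx0
      have hx' : 0 < ‖x‖ := norm_pos_iff.2 hx0
      refine Tendsto.mul_const _ ?_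
      refine Tendsto.mul ?_ ?_
      · exact ((hDc.continuousAt (Ioi_mem_nhds hx')).tendsto).comp (hrho x)
      · exact tendsto_const_nhds.div (hrho x) hx'.ne'
  have lim3 := lim2.neg
  refine tendsto_nhds_unique lim1 ?_
  simp only [hparts]
  exact lim3

theorem WH1 (hF : T_facts) (hEn : T_energy) (hP : T_polar) (hN : T_newton) (hDom : T_dom) :
    T_wh1 := by
  intro s s1 hx
  have hf := hF _ _ _ _ hx
  have h1 := facts1 hDom hx hf
  have hscont : ContinuousOn s (Ioi 0) := hf.contS.mono Ioi_subset_Ici_self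
  have hs1cont : ContinuousOn s1 (Ioi 0) := hx.cont1.mono Ioi_subset_Ici_self
  have hidc : ContinuousOn (fun t : ℝ => t) (Ioi 0) := continuousOn_id
  have hne : ∀ t ∈ Ioi (0 : ℝ), (fun t : ℝ => t) t ≠ 0 := fun t ht => (mem_Ioi.1 ht).ne'
  have hWc : ContinuousOn (Wp s) (Ioi 0) := hscont.div hidc hne
  have hDc : ContinuousOn (Dp s s1) (Ioi 0) := (hs1cont.sub (hscont.div hidc hne)).div hidc hne
  -- norms
  have hnorm : ∀ x : E3, ‖wfun s x‖ ^ 2 = Wp s ‖x‖ ^ 2 := by
    intro x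
    rw [wfun, Complex.norm_real, Real.norm_eq_abs, sq_abs, Wp]
  have hnormG : ∀ i (x : E3), ‖((Gr s s1 i x : ℝ) : ℂ)‖ ^ 2 = Gr s s1 i x ^ 2 := by
    intro i x
    rw [Complex.norm_real, Real.norm_eq_abs, sq_abs]
  have hwm : AEStronglyMeasurable (wfun s) volume := by
    have h2 := aesm_radial hWc
    exact Complex.continuous_ofReal.comp_aestronglyMeasurable h2
  have hGrm : ∀ i, AEStronglyMeasurable (Gr s s1 i) volume := by
    intro i
    have h2 := aesm_radial hDc
    have h3 : Measurable fun x : E3 => x i / ‖x‖ :=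
      (by fun_prop : Measurable fun x : E3 => x i).div measurable_norm
    exact h2.mul h3.aestronglyMeasurable
  have hGm : ∀ i, AEStronglyMeasurable (fun x => ((Gr s s1 i x : ℝ) : ℂ)) volume := fun i =>
    Complex.continuous_ofReal.comp_aestronglyMeasurable (hGrm i)
  -- the mass
  have i1 : Integrable (fun x : E3 => Wp s ‖x‖ ^ 2) := by
    rw [(hP.2 (fun r => Wp s r ^ 2)).1]
    refine hx.int0.congr_fun ?_ measurableSet_Ioi
    intro r hr
    have hr : 0 < r := hr
    simp only [Wp]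
    field_simp
  have e1 : ∫ x : E3, Wp s ‖x‖ ^ 2 = Mf s := by
    rw [(hP.2 (fun r => Wp s r ^ 2)).2, Mf]
    congr 1
    refine setIntegral_congr_fun measurableSet_Ioi fun r hr => ?_
    have hr : 0 < r := hr
    simp only [Wp]
    field_simp
  have i2 : Integrable (fun x : E3 => Dp s s1 ‖x‖ ^ 2) := by
    rw [(hP.2 (fun r => Dp s s1 r ^ 2)).1]
    refine h1.intA.congr_fun ?_ measurableSet_Ioi
    intro r hr
    have hr : 0 < r := hr
    simp only [Dp]
    field_simp
  have e2 : ∫ x : E3, Dp s s1 ‖x‖ ^ 2 = kin s1 := by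
    rw [(hP.2 (fun r => Dp s s1 r ^ 2)).2, kin, ← h1.eqA]
    congr 1
    refine setIntegral_congr_fun measurableSet_Ioi fun r hr => ?_
    have hr : 0 < r := hr
    simp only [Dp]
    field_simp
  have hwL : MemLp (wfun s) 2 volume := by
    rw [memLp_two_iff_integrable_sq_norm hwm]
    simp only [hnorm]
    exact i1
  have hGL : ∀ i, MemLp (fun x => ((Gr s s1 i x : ℝ) : ℂ)) 2 volume := by
    intro i
    rw [memLp_two_iff_integrable_sq_norm (hGm i)]
    simp only [hnormG]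
    refine i2.mono' ((hGrm i).pow 2) (Eventually.of_forall fun x => ?_)
    rw [Real.norm_eq_abs, abs_of_nonneg (sq_nonneg _), ← sum_Gr]
    exact Finset.single_le_sum (f := fun i => Gr s s1 i x ^ 2) (fun j _ => sq_nonneg _)
      (Finset.mem_univ i)
  have hH1 : IsH1 (wfun s) (fun i x => ((Gr s s1 i x : ℝ) : ℂ)) := by
    refine ⟨hwL, hGL, fun i φ hφ => ?_⟩
    have h2 := weak_real hP hx hf h1 i hφ
    have h3 : ∀ x, wfun s x * (pd i φ x : ℂ) = ((Wp s ‖x‖ * pd i φ x : ℝ) : ℂ) := by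
      intro x
      rw [wfun, Wp]
      push_cast
      ring
    have h4 : ∀ x, ((Gr s s1 i x : ℝ) : ℂ) * (φ x : ℂ) = ((Gr s s1 i x * φ x : ℝ) : ℂ) := by
      intro x
      push_cast
      ring
    simp only [h3, h4]
    rw [integral_complex_ofReal, integral_complex_ofReal, h2]
    push_cast
    ring
  -- Newton
  have hrf : ∀ t, 0 < t → Sf (rf fun r => ((s r / r : ℝ) : ℂ)) t = Sf s t := by
    intro t ht
    rw [Sf, Sf]
    congr 1
    rw [intervalIntegral.integral_of_le ht.le, intervalIntegral.integral_of_le ht.le]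
    refine setIntegral_congr_fun measurableSet_Ioc fun τ hτ => ?_
    have hτ0 : 0 < τ := hτ.1
    show (rf (fun r => ((s r / r : ℝ) : ℂ)) τ) ^ 2 = s τ ^ 2
    rw [rf, ← Complex.ofReal_mul, Complex.norm_real, Real.norm_eq_abs, sq_abs]
    congr 1
    field_simp
  have hhart : ∀ x : E3, x ≠ 0 → hartree (wfun s) x = ∫ t in Ioi ‖x‖, Sf s t / t ^ 2 := by
    intro x hx0
    have hx' : 0 < ‖x‖ := norm_pos_iff.2 hx0
    obtain ⟨-, -, h2⟩ := hN (wfun s) (fun r => ((s r / r : ℝ) : ℂ)) hwL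
      (Eventually.of_forall fun x => rfl) x hx0
    rw [h2]
    refine setIntegral_congr_fun measurableSet_Ioi fun t ht => ?_
    show Sf (rf fun r => ((s r / r : ℝ) : ℂ)) t / t ^ 2 = Sf s t / t ^ 2
    rw [hrf t (hx'.trans ht)]
  have hae : (fun x : E3 => ‖wfun s x‖ ^ 2 * hartree (wfun s) x) =ᵐ[volume]
      fun x : E3 => (fun r => Wp s r ^ 2 * (1 / r - phi 0 s r)) ‖x‖ := by
    filter_upwards [ae_ne_zero] with x hx0
    have hx' : 0 < ‖x‖ := norm_pos_iff.2 hx0
    rw [hnorm, hhart x hx0, h1.newt _ hx']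
  have i3 : Integrable (fun x : E3 => (fun r => Wp s r ^ 2 * (1 / r - phi 0 s r)) ‖x‖) := by
    rw [(hP.2 (fun r => Wp s r ^ 2 * (1 / r - phi 0 s r))).1]
    refine h1.intC.congr_fun ?_ measurableSet_Ioi
    intro r hr
    have hr : 0 < r := hr
    simp only [Wp]
    field_simp
  have e3 : ∫ x : E3, ‖wfun s x‖ ^ 2 * hartree (wfun s) x = Iw 2 2 0 s := by
    rw [integral_congr_ae hae, (hP.2 (fun r => Wp s r ^ 2 * (1 / r - phi 0 s r))).2, ← h1.eqC]
    congr 1
    refine setIntegral_congr_fun measurableSet_Ioi fun r hr => ?_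
    have hr : 0 < r := hr
    simp only [Wp]
    field_simp
  have e4 : ∫ x : E3, ‖wfun s x‖ ^ 2 / ‖x‖ = Iw 1 2 0 s := by
    have h2 : (fun x : E3 => ‖wfun s x‖ ^ 2 / ‖x‖) =
        fun x : E3 => (fun r => Wp s r ^ 2 / r) ‖x‖ := by
      ext x
      simp only [hnorm]
    rw [h2, (hP.2 (fun r => Wp s r ^ 2 / r)).2, ← h1.eqB]
    congr 1
    refine setIntegral_congr_fun measurableSet_Ioi fun r hr => ?_
    have hr : 0 < r := hr
    simp only [Wp]
    field_simp
  have e5 : ∫ x : E3, ∑ i, ‖((Gr s s1 i x : ℝ) : ℂ)‖ ^ 2 = kin s1 := by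
    simp only [hnormG, sum_Gr]
    exact e2
  refine ⟨_, hH1, ?_, hhart, i3.congr hae.symm, e3, ?_⟩
  · rw [mass]
    simp only [hnorm]
    exact e1
  · obtain ⟨-, h2, -, -, -⟩ := hEn _ _ _ _ hx
    rw [energy, e3, e4, e5]
    rw [zero_mul, add_zero] at h2
    linarith

end

end Pool.Agent.H49.HM
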