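import Pool.Agent.H99.HM.Targets

/-!
# Polar coordinates for arbitrary integrable functions
-/

namespace Pool.Agent.H49.HM

open MeasureTheory Set Filter Topology Real Pool.Agent.H99.HM
open scoped ContDiff

/-- The unit sphere. -/
abbrev S2 : Type := Metric.sphere (0 : E3) 1

theorem finrank_E3 : Module.finrank ℝ E3 - 1 = 2 := by
  simp

/-- Integration in polar coordinates. -/
theorem polar_aux (F : E3 → ℝ) (hF : Integrable F) :
    Integrable (fun p : S2 × Ioi (0 : ℝ) => F (p.2.1 • p.1.1))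
      ((volume : Measure E3).toSphere.prod (Measure.volumeIoiPow (Module.finrank ℝ E3 - 1))) ∧
    ∫ x, F x = ∫ p : S2 × Ioi (0 : ℝ), F (p.2.1 • p.1.1)
      ∂((volume : Measure E3).toSphere.prod (Measure.volumeIoiPow (Module.finrank ℝ E3 - 1))) := by
  have hmp := (volume : Measure E3).measurePreserving_homeomorphUnitSphereProd
  have he : ∀ x : ({(0 : E3)}ᶜ : Set E3),
      ((homeomorphUnitSphereProd E3 x).2.1 • (homeomorphUnitSphereProd E3 x).1.1 : E3) = x.1 := by
    intro x
    have h := congrArg Subtype.val ((homeomorphUnitSphereProd E3).symm_apply_apply x)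
    rw [homeomorphUnitSphereProd_symm_apply_coe] at h
    exact h
  constructor
  · rw [← hmp.integrable_comp_emb (Homeomorph.measurableEmbedding _)]
    have h1 : ((fun p : S2 × Ioi (0 : ℝ) => F (p.2.1 • p.1.1)) ∘ (homeomorphUnitSphereProd E3)) =
        fun x : ({(0 : E3)}ᶜ : Set E3) => F x.1 := by
      ext x
      simp only [Function.comp_apply, he]
    rw [h1]
    have h2 := (integrableOn_iff_comap_subtypeVal (measurableSet_singleton (0 : E3)).compl
      (f := F) (μ := volume)).1 (by rw [IntegrableOn, restrict_compl_singleton]; exact hF)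
    exact h2
  · calc ∫ x, F x = ∫ x : ({(0 : E3)}ᶜ : Set E3), F x.1 ∂((volume : Measure E3).comap (↑)) := by
          rw [integral_subtype_comap (measurableSet_singleton _).compl fun x => F x,
            restrict_compl_singleton]
      _ = ∫ x : ({(0 : E3)}ᶜ : Set E3), (fun p : S2 × Ioi (0 : ℝ) => F (p.2.1 • p.1.1))
            (homeomorphUnitSphereProd E3 x) ∂((volume : Measure E3).comap (↑)) := by
          simp only [he]
      _ = _ := hmp.integral_comp (Homeomorph.measurableEmbedding _)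
            (fun p : S2 × Ioi (0 : ℝ) => F (p.2.1 • p.1.1))

theorem ioiPow (k : ℝ → ℝ) :
    ∫ r : Ioi (0 : ℝ), k r.1 ∂(Measure.volumeIoiPow (Module.finrank ℝ E3 - 1)) =
      ∫ r in Ioi (0 : ℝ), r ^ 2 * k r := by
  rw [finrank_E3]
  simp only [Measure.volumeIoiPow, ENNReal.ofReal]
  rw [integral_withDensity_eq_integral_smul,
    integral_subtype_comap measurableSet_Ioi fun a ↦ Real.toNNReal (a ^ 2) • k a,
    setIntegral_congr_fun measurableSet_Ioi fun x hx ↦ ?_]
  · rw [NNReal.smul_def, Real.coe_toNNReal _ (pow_nonneg hx.out.le _), smul_eq_mul]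
  · exact (measurable_subtype_coe.pow_const _).real_toNNReal

theorem polar (F : E3 → ℝ) (hF : Integrable F) :
    Integrable (fun w : S2 => ∫ r in Ioi (0 : ℝ), r ^ 2 * F (r • w.1))
      (volume : Measure E3).toSphere ∧
    ∫ x, F x = ∫ w : S2, (∫ r in Ioi (0 : ℝ), r ^ 2 * F (r • w.1))
      ∂(volume : Measure E3).toSphere := by
  obtain ⟨h1, h2⟩ := polar_aux F hF
  have h3 := h1.integral_prod_left
  have h4 : (fun w : S2 => ∫ r in Ioi (0 : ℝ), r ^ 2 * F (r • w.1)) =
      fun w : S2 => ∫ r : Ioi (0 : ℝ), F (r.1 • w.1)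
        ∂(Measure.volumeIoiPow (Module.finrank ℝ E3 - 1)) := by
    ext w
    rw [ioiPow (fun r => F (r • w.1))]
  rw [h4]
  refine ⟨h3, ?_⟩
  rw [h2, integral_prod _ h1]

/-- Comparison of integrals along rays. -/
theorem integral_mono_rays (F₁ F₂ : E3 → ℝ) (h₁ : Integrable F₁) (h₂ : Integrable F₂)
    (h : ∀ w : E3, ‖w‖ = 1 → ∫ r in Ioi (0 : ℝ), r ^ 2 * F₁ (r • w) ≤
      ∫ r in Ioi (0 : ℝ), r ^ 2 * F₂ (r • w)) :
    ∫ x, F₁ x ≤ ∫ x, F₂ x := by
  obtain ⟨a1, a2⟩ := polar F₁ h₁
  obtain ⟨b1, b2⟩ := polar F₂ h₂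
  rw [a2, b2]
  exact integral_mono a1 b1 fun w => h w.1 (mem_sphere_zero_iff_norm.1 w.2)

end Pool.Agent.H49.HM
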