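import Pool.Agent.H49.HM.GS3

/-!
# The function `s(|x|)/|x|` (module WH1), one-dimensional part
-/

namespace Pool.Agent.H49.HM

open MeasureTheory Set Filter Topology Real Pool.Agent.H99.HM
open scoped ContDiff

theorem integrable_of_dom {F g : ℝ → ℝ} (hF : ContinuousOn F (Ioi 0)) {A : ℝ}
    (h1 : ∀ t ∈ Ioc (0 : ℝ) 1, |F t| ≤ A) (hg : IntegrableOn g (Ioi 0))
    (h2 : ∀ t, 1 < t → |F t| ≤ g t) : IntegrableOn F (Ioi 0) := by
  have e : Ioi (0 : ℝ) = Ioc 0 1 ∪ Ioi 1 := by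
    rw [Ioc_union_Ioi_eq_Ioi zero_le_one]
  have hm := hF.aestronglyMeasurable (μ := volume) measurableSet_Ioi
  rw [e, integrableOn_union]
  constructor
  · refine Integrable.mono' (g := fun _ => A) ?_ ?_ ?_
    · exact integrableOn_const (by simp)
    · exact hm.mono_set Ioc_subset_Ioi_self
    · exact (ae_restrict_iff' measurableSet_Ioc).2 (Eventually.of_forall h1)
  · refine Integrable.mono' (g := g) ?_ ?_ ?_
    · exact hg.mono_set (Ioi_subset_Ioi zero_le_one)
    · exact hm.mono_set (Ioi_subset_Ioi zero_le_one)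
    · exact (ae_restrict_iff' measurableSet_Ioi).2 (Eventually.of_forall h2)

/-- All one-dimensional facts. -/
structure Facts1 (s s1 : ℝ → ℝ) : Prop where
  nonneg : ∀ t, 0 ≤ t → 0 ≤ s t
  bd : ∃ K : ℝ, 0 < K ∧ (∀ t, 0 < t → s t / t ≤ K) ∧ ∀ t, 0 < t → |s1 t| ≤ K
  intA : IntegrableOn (fun t => (s1 t - s t / t) ^ 2) (Ioi 0)
  eqA : ∫ t in Ioi (0 : ℝ), (s1 t - s t / t) ^ 2 = ∫ t in Ioi (0 : ℝ), s1 t ^ 2
  intB : IntegrableOn (fun t => s t ^ 2 / t) (Ioi 0)
  eqB : 4 * π * ∫ t in Ioi (0 : ℝ), s t ^ 2 / t = Iw 1 2 0 s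
  intC : IntegrableOn (fun t => s t ^ 2 * (1 / t - phi 0 s t)) (Ioi 0)
  eqC : 4 * π * ∫ t in Ioi (0 : ℝ), s t ^ 2 * (1 / t - phi 0 s t) = Iw 2 2 0 s
  newt : ∀ t, 0 < t → ∫ τ in Ioi t, Sf s τ / τ ^ 2 = 1 / t - phi 0 s t

theorem bounded_of_tendsto {f : ℝ → ℝ} (hc : ContinuousOn f (Ici 0)) (hl : Tendsto f atTop (𝓝 0)) :
    ∃ K : ℝ, 0 < K ∧ ∀ t, 0 ≤ t → |f t| ≤ K := by
  have h1 : ∀ᶠ t in atTop, |f t| < 1 := by
    have := (hl.abs).eventually (gt_mem_nhds (by simp : |(0 : ℝ)| < 1))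
    exact this
  obtain ⟨T, hT⟩ := eventually_atTop.1 h1
  obtain ⟨K, hK⟩ := (isCompact_Icc (a := (0 : ℝ)) (b := max T 0)).exists_bound_of_continuousOn
    (hc.mono Icc_subset_Ici_self)
  refine ⟨|K| + 1, by positivity, fun t ht => ?_⟩
  rcases le_total t (max T 0) with h | h
  · have := hK t ⟨ht, h⟩
    rw [Real.norm_eq_abs] at this
    linarith [le_abs_self K]
  · have := hT t ((le_max_left _ _).trans h)
    linarith [abs_nonneg K]

theorem facts1 (hDom : T_dom) {s s1 : ℝ → ℝ} (hx : Ext 0 0 s s1) (hf : ExtFacts 0 0 s s1) :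
    Facts1 s s1 := by
  obtain ⟨c, C, hc, hC, hn⟩ := hf.near0
  have hs0 : ∀ t, 0 ≤ t → 0 ≤ s t := by
    intro t ht
    rcases eq_or_lt_of_le ht with h | h
    · rw [← h, hx.zero]
    · exact (hx.pos t h).le
  have hsle : ∀ t ∈ Ioc (0 : ℝ) 1, s t / t ≤ C := by
    intro t ht
    have ht0 : 0 < t := ht.1
    rw [div_le_iff₀ ht0]
    exact (hn t ⟨ht.1.le, ht.2⟩).2.1
  have hS0 : ∀ t, 0 < t → 0 ≤ Sf s t := fun t ht => (hf.Spos t ht).le
  have hSM : ∀ t, 0 < t → Sf s t ≤ Mf s := fun t ht => (hf.Slt t ht.le).le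
  have hM := hf.mpos
  have hScont : ContinuousOn (Sf s) (Ioi 0) := hf.Scont.mono Ioi_subset_Ici_self
  have hscont : ContinuousOn s (Ioi 0) := hf.contS.mono Ioi_subset_Ici_self
  have hs1cont : ContinuousOn s1 (Ioi 0) := hx.cont1.mono Ioi_subset_Ici_self
  have hidc : ContinuousOn (fun t : ℝ => t) (Ioi 0) := continuousOn_id
  have hne : ∀ t ∈ Ioi (0 : ℝ), (fun t : ℝ => t) t ≠ 0 := fun t ht => (mem_Ioi.1 ht).ne'
  have hphic : ContinuousOn (phi 0 s) (Ioi 0) := fun t ht =>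
    (hf.phiDer t ht).continuousAt.continuousWithinAt
  obtain ⟨B, hB0, hB⟩ := phi_bdd hf
  obtain ⟨Ks, hKs0, hKs⟩ := bounded_of_tendsto hf.contS hf.slim
  obtain ⟨K1, hK10, hK1⟩ := bounded_of_tendsto hx.cont1 hf.s1lim
  -- integrability
  have iS : IntegrableOn (fun t => Sf s t / (0 + t) ^ 2) (Ioi 0) := by
    refine (hDom 0 (Sf s) (max C (Mf s)) le_rfl
      (hScont.aestronglyMeasurable measurableSet_Ioi) ?_ ?_).1
    · intro t ht
      rw [abs_of_nonneg (hS0 t ht.1)]
      have ht0 : 0 < t := ht.1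
      calc Sf s t ≤ C * t ^ 3 := (hn t ⟨ht.1.le, ht.2⟩).2.2.2
        _ ≤ max C (Mf s) * t ^ 3 := by gcongr; exact le_max_left _ _
    · intro t ht
      rw [abs_of_nonneg (hS0 t (by linarith))]
      exact (hSM t (by linarith)).trans (le_max_right _ _)
  have iS2 : IntegrableOn (fun t => Sf s t ^ 2 / (0 + t) ^ 2) (Ioi 0) := by
    refine (hDom 0 (fun t => Sf s t ^ 2) (max (C ^ 2) (Mf s ^ 2)) le_rfl
      ((hScont.pow 2).aestronglyMeasurable measurableSet_Ioi) ?_ ?_).1
    · intro t ht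
      have ht0 : 0 < t := ht.1
      rw [abs_of_nonneg (sq_nonneg _)]
      have h1 := (hn t ⟨ht.1.le, ht.2⟩).2.2.2
      have h2 := hS0 t ht.1
      calc Sf s t ^ 2 ≤ (C * t ^ 3) ^ 2 := by gcongr
        _ = C ^ 2 * t ^ 3 * t ^ 3 := by ring
        _ ≤ C ^ 2 * t ^ 3 * 1 := by
            gcongr
            exact pow_le_one₀ ht0.le ht.2
        _ ≤ max (C ^ 2) (Mf s ^ 2) * t ^ 3 := by
            rw [mul_one]; gcongr; exact le_max_left _ _
    · intro t ht
      rw [abs_of_nonneg (sq_nonneg _)]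
      have h2 := hS0 t (by linarith)
      have h3 := hSM t (by linarith)
      calc Sf s t ^ 2 ≤ Mf s ^ 2 := by gcongr
        _ ≤ _ := le_max_right _ _
  have isr : IntegrableOn (fun t => (s t / t) ^ 2) (Ioi 0) := by
    refine integrable_of_dom (A := C ^ 2) ((hscont.div hidc hne).pow 2) ?_ hx.int0 ?_
    · intro t ht
      have ht0 : 0 < t := ht.1
      rw [abs_of_nonneg (sq_nonneg _)]
      have h1 := hsle t ht
      have h2 : 0 ≤ s t / t := div_nonneg (hs0 t ht0.le) ht0.le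
      gcongr
    · intro t ht
      rw [abs_of_nonneg (sq_nonneg _)]
      have h2 := hs0 t (by linarith)
      have h3 : s t / t ≤ s t := div_le_self h2 ht.le
      have h4 : 0 ≤ s t / t := div_nonneg h2 (by linarith)
      gcongr
  have iA : IntegrableOn (fun t => (s1 t - s t / t) ^ 2) (Ioi 0) := by
    refine Integrable.mono' ((hx.int1.const_mul 2).add (isr.const_mul 2)) ?_ ?_
    · exact ((hs1cont.sub (hscont.div hidc hne)).pow 2).aestronglyMeasurable measurableSet_Ioi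
    · refine Eventually.of_forall fun t => ?_
      rw [Real.norm_eq_abs, abs_of_nonneg (sq_nonneg _)]
      show (s1 t - s t / t) ^ 2 ≤ 2 * s1 t ^ 2 + 2 * (s t / t) ^ 2
      nlinarith [sq_nonneg (s1 t + s t / t)]
  have iB : IntegrableOn (fun t => s t ^ 2 / t) (Ioi 0) := by
    refine integrable_of_dom (A := C ^ 2) ((hscont.pow 2).div hidc hne) ?_ hx.int0 ?_
    · intro t ht
      have ht0 : 0 < t := ht.1
      rw [abs_of_nonneg (div_nonneg (sq_nonneg _) ht0.le)]
      have h1 : s t ≤ C * t := (hn t ⟨ht.1.le, ht.2⟩).2.1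
      have h2 := hs0 t ht0.le
      rw [div_le_iff₀ ht0]
      calc s t ^ 2 ≤ (C * t) ^ 2 := by gcongr
        _ = C ^ 2 * t * t := by ring
        _ ≤ C ^ 2 * 1 * t := by
            gcongr
            exact ht.2
        _ = C ^ 2 * t := by ring
    · intro t ht
      rw [abs_of_nonneg (div_nonneg (sq_nonneg _) (by linarith))]
      exact div_le_self (sq_nonneg _) ht.le
  have iC : IntegrableOn (fun t => s t ^ 2 * (1 / t - phi 0 s t)) (Ioi 0) := by
    refine Integrable.mono' (hx.int0.const_mul B) ?_ ?_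
    · exact ((hscont.pow 2).mul ((continuousOn_const.div hidc hne).sub
        hphic)).aestronglyMeasurable measurableSet_Ioi
    · refine (ae_restrict_iff' measurableSet_Ioi).2 (Eventually.of_forall fun t ht => ?_)
      rw [Real.norm_eq_abs, abs_mul, abs_of_nonneg (sq_nonneg _), mul_comm]
      exact mul_le_mul_of_nonneg_right (hB t ht) (sq_nonneg _)
  -- squeeze at zero
  have hzero : ∀ (f : ℝ → ℝ) (A : ℝ), f 0 = 0 → (∀ t ∈ Ioc (0 : ℝ) 1, |f t| ≤ A * t) →
      ContinuousWithinAt f (Ici 0) 0 := by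
    intro f A hf0 hfA
    rw [ContinuousWithinAt, hf0]
    have h1 : Tendsto (fun t : ℝ => |A| * t) (𝓝[Ici 0] 0) (𝓝 0) := by
      have : Tendsto (fun t : ℝ => |A| * t) (𝓝 0) (𝓝 (|A| * 0)) :=
        (by fun_prop : Continuous fun t : ℝ => |A| * t).tendsto 0
      rw [mul_zero] at this
      exact this.mono_left nhdsWithin_le_nhds
    refine squeeze_zero_norm' ?_ h1
    have h2 : ∀ᶠ t : ℝ in 𝓝[Ici 0] 0, t ≤ 1 := nhdsWithin_le_nhds (ge_mem_nhds one_pos)
    filter_upwards [h2, self_mem_nhdsWithin] with t ht1 ht0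
    rcases eq_or_lt_of_le (mem_Ici.1 ht0) with h | h
    · rw [← h, hf0]; simp
    · rw [Real.norm_eq_abs]
      refine (hfA t ⟨h, ht1⟩).trans ?_
      gcongr
      exact le_abs_self A
  have hinv : Tendsto (fun t : ℝ => 1 / t) atTop (𝓝 0) := by
    simpa using tendsto_inv_atTop_zero (𝕜 := ℝ)
  -- (A)
  have dA : ∀ t ∈ Ioi (0 : ℝ), HasDerivAt (fun t => s t ^ 2 / t)
      (s1 t ^ 2 - (s1 t - s t / t) ^ 2) t := by
    intro t ht
    have ht0 : 0 < t := ht
    have h1 : HasDerivAt (fun t => s t ^ 2) ((2 : ℕ) * s t ^ (2 - 1) * s1 t) t :=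
      (hx.der t ht0).fun_pow 2
    have h2 : HasDerivAt (fun t => s t ^ 2 / t)
        ((((2 : ℕ) * s t ^ (2 - 1) * s1 t) * t - s t ^ 2 * 1) / t ^ 2) t :=
      h1.fun_div (hasDerivAt_id' t) ht0.ne'
    convert h2 using 1
    field_simp
    ring
  have limA : Tendsto (fun t => s t ^ 2 / t) atTop (𝓝 0) := by
    have h1 : Tendsto (fun t => s t ^ 2 * (1 / t)) atTop (𝓝 (0 ^ 2 * 0)) :=
      (hf.slim.pow 2).mul hinv
    simp only [mul_one_div] at h1
    simpa using h1
  have intA' : IntegrableOn (fun t => s1 t ^ 2 - (s1 t - s t / t) ^ 2) (Ioi 0) := hx.int1.sub iA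
  have eA0 := integral_Ioi_of_hasDerivAt_of_tendsto (hzero (fun t => s t ^ 2 / t) (C ^ 2)
    (by simp) (by
      intro t ht
      have ht0 : 0 < t := ht.1
      rw [abs_of_nonneg (div_nonneg (sq_nonneg _) ht0.le), div_le_iff₀ ht0]
      have h1 : s t ≤ C * t := (hn t ⟨ht.1.le, ht.2⟩).2.1
      have h2 := hs0 t ht0.le
      calc s t ^ 2 ≤ (C * t) ^ 2 := by gcongr
        _ = C ^ 2 * t * t := by ring)) dA intA' limA
  rw [integral_sub hx.int1 iA] at eA0
  -- (B)
  have dB : ∀ t ∈ Ioi (0 : ℝ), HasDerivAt (fun t => Sf s t / t)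
      (4 * π * (s t ^ 2 / t) - Sf s t / (0 + t) ^ 2) t := by
    intro t ht
    have ht0 : 0 < t := ht
    have h2 : HasDerivAt (fun t => Sf s t / t)
        (((4 * π * s t ^ 2) * t - Sf s t * 1) / t ^ 2) t :=
      (hf.Sder t ht0).fun_div (hasDerivAt_id' t) ht0.ne'
    convert h2 using 1
    rw [zero_add]
    field_simp
  have limB : Tendsto (fun t => Sf s t / t) atTop (𝓝 0) := by
    have h1 : Tendsto (fun t => Sf s t * (1 / t)) atTop (𝓝 (Mf s * 0)) := hf.Slim.mul hinv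
    simp only [mul_one_div] at h1
    simpa using h1
  have intB' : IntegrableOn (fun t => 4 * π * (s t ^ 2 / t) - Sf s t / (0 + t) ^ 2) (Ioi 0) :=
    (iB.const_mul _).sub iS
  have eB0 := integral_Ioi_of_hasDerivAt_of_tendsto (hzero (fun t => Sf s t / t) C
    (by simp) (by
      intro t ht
      have ht0 : 0 < t := ht.1
      rw [abs_of_nonneg (div_nonneg (hS0 t ht0) ht0.le), div_le_iff₀ ht0]
      calc Sf s t ≤ C * t ^ 3 := (hn t ⟨ht.1.le, ht.2⟩).2.2.2
        _ = C * t * t * t := by ring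
        _ ≤ C * t * t * 1 := by gcongr; exact ht.2
        _ = C * t * t := by ring)) dB intB' limB
  rw [integral_sub (iB.const_mul _) iS, integral_const_mul] at eB0
  -- (C)
  have dC : ∀ t ∈ Ioi (0 : ℝ), HasDerivAt (fun t => Sf s t * (1 / t - phi 0 s t))
      (4 * π * (s t ^ 2 * (1 / t - phi 0 s t)) - Sf s t ^ 2 / (0 + t) ^ 2) t := by
    intro t ht
    have ht0 : 0 < t := ht
    have h0 : HasDerivAt (fun t : ℝ => 1 / t) (-(t ^ 2)⁻¹) t := by
      simpa using hasDerivAt_inv ht0.ne'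
    have h2 : HasDerivAt (fun t => Sf s t * (1 / t - phi 0 s t))
        ((4 * π * s t ^ 2) * (1 / t - phi 0 s t) + Sf s t *
          (-(t ^ 2)⁻¹ - (-((1 - Sf s t) / (0 + t) ^ 2)))) t :=
      (hf.Sder t ht0).fun_mul (h0.fun_sub (hf.phiDer t ht0))
    convert h2 using 1
    rw [zero_add]
    field_simp
    ring
  have limC : Tendsto (fun t => Sf s t * (1 / t - phi 0 s t)) atTop (𝓝 0) := by
    have h1 : Tendsto (fun t => Sf s t * (1 / t - phi 0 s t)) atTop (𝓝 (Mf s * (0 - 0))) :=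
      hf.Slim.mul (hinv.sub hf.phiLim)
    simpa using h1
  have intC' : IntegrableOn (fun t => 4 * π * (s t ^ 2 * (1 / t - phi 0 s t)) -
      Sf s t ^ 2 / (0 + t) ^ 2) (Ioi 0) := (iC.const_mul _).sub iS2
  have eC0 := integral_Ioi_of_hasDerivAt_of_tendsto (hzero
    (fun t => Sf s t * (1 / t - phi 0 s t)) (C * B) (by simp [hf.S0]) (by
      intro t ht
      have ht0 : 0 < t := ht.1
      rw [abs_mul, abs_of_nonneg (hS0 t ht0)]
      have h1 : Sf s t ≤ C * t := by
        calc Sf s t ≤ C * t ^ 3 := (hn t ⟨ht.1.le, ht.2⟩).2.2.2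
          _ = C * t * (t * t) := by ring
          _ ≤ C * t * (1 * 1) := by
              gcongr
              · exact ht.2
              · exact ht.2
          _ = C * t := by ring
      calc Sf s t * |1 / t - phi 0 s t| ≤ (C * t) * B := by
            gcongr
            exact hB t ht0
        _ = C * B * t := by ring)) dC intC' limC
  rw [integral_sub (iC.const_mul _) iS2, integral_const_mul] at eC0
  refine ⟨hs0, ⟨max C Ks + K1, by positivity, ?_, ?_⟩, iA, ?_, iB, ?_, iC, ?_, ?_⟩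
  · intro t ht
    rcases le_total t 1 with h | h
    · have := hsle t ⟨ht, h⟩
      have h2 := le_max_left C Ks
      linarith
    · have h1 := hs0 t ht.le
      have h2 : s t / t ≤ s t := div_le_self h1 h
      have h3 := hKs t ht.le
      rw [abs_of_nonneg h1] at h3
      have h4 := le_max_right C Ks
      linarith
  · intro t ht
    have h3 := hK1 t ht.le
    have h4 := le_max_left C Ks
    linarith
  · simp at eA0
    linarith
  · simp at eB0
    rw [Iw]
    simp only [pow_one, zero_add]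
    linarith
  · simp [hf.S0] at eC0
    rw [Iw]
    simp only [zero_add, one_div]
    linarith
  · intro t ht
    have h1 : IntegrableOn (fun τ => Sf s τ / (0 + τ) ^ 2) (Ioi t) :=
      iS.mono_set (Ioi_subset_Ioi ht.le)
    have h2 := hf.phiInt t ht
    have h3 : IntegrableOn (fun τ : ℝ => 1 / τ ^ 2) (Ioi t) := by
      have h4 := h1.add h2
      refine h4.congr_fun ?_ measurableSet_Ioi
      intro τ hτ
      simp only [Pi.add_apply, zero_add]
      ring
    have h5 : ∫ τ in Ioi t, 1 / τ ^ 2 = 1 / t := by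
      have h6 : ∀ x ∈ Ici t, HasDerivAt (fun x : ℝ => -(1 / x)) (1 / x ^ 2) x := by
        intro x hx'
        have hx0 : 0 < x := lt_of_lt_of_le ht hx'
        have h9 : HasDerivAt (fun x : ℝ => -x⁻¹) (-(-(x ^ 2)⁻¹)) x := (hasDerivAt_inv hx0.ne').fun_neg
        simpa using h9
      have h7 := integral_Ioi_of_hasDerivAt_of_tendsto' h6 h3 (by simpa using hinv.neg)
      rw [h7]
      ring
    have h8 : ∫ τ in Ioi t, Sf s τ / τ ^ 2 =
        ∫ τ in Ioi t, (1 / τ ^ 2 - (1 - Sf s τ) / (0 + τ) ^ 2) := by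
      refine setIntegral_congr_fun measurableSet_Ioi fun τ _ => ?_
      simp only [zero_add]
      ring
    rw [h8, integral_sub h3 h2, h5, phi]

end Pool.Agent.H49.HM
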